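import Pool.Agent.X14.QR10

/-!
# The sum with weight `[2dk+1]` is divisible by `Φ_n(q)^4` for `2n ≡ -1 (mod d)`
-/

set_option autoImplicit false

namespace Pool.Agent.Results.MP_3c5a12_nt.HalfNMinusOne

open Finset Polynomial

noncomputable section

/-- The indeterminate `q`, as an element of `ℚ(q)`. -/
def q : RatFunc ℚ := RatFunc.X

/-- `[m] = (1 - q^m) / (1 - q)` -/
def qint (m : ℕ) : RatFunc ℚ := (1 - q ^ m) / (1 - q)

/-- The q-shifted factorial `(a; x)_k = (1 - a)(1 - a x) ⋯ (1 - a x^{k-1})`. -/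
def qp (a x : RatFunc ℚ) (k : ℕ) : RatFunc ℚ := ∏ j ∈ range k, (1 - a * x ^ j)

/-- The sum `S_d(n)` of the problem. -/
def S (d n : ℕ) : RatFunc ℚ :=
  ∑ k ∈ range n, qint (2 * d * k + 1) * (qp q (q ^ d) k / qp (q ^ d) (q ^ d) k) ^ d * q ^ (d * (d - 3) / 2 * k)

/-- `A ≡ 0 (mod Φ^j)`: `A = U / V` with polynomials `U`, `V`, where `V` is coprime to `Φ` and
`Φ^j` divides `U`. -/
def ZeroMod (Φ : ℚ[X]) (j : ℕ) (A : RatFunc ℚ) : Prop :=
  ∃ U V : ℚ[X], IsCoprime V Φ ∧ Φ ^ j ∣ U ∧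
    A = algebraMap ℚ[X] (RatFunc ℚ) U / algebraMap ℚ[X] (RatFunc ℚ) V

open Pool.Agent.X14 QL QBlock QR

lemma q_def : q = QL.q := rfl

lemma zeroMod_of_QO {Φ : ℚ[X]} (hΦ : ¬ IsUnit Φ) {j : ℕ} {F : RatFunc ℚ} (h : QO Φ j F) : ZeroMod Φ j F := by
  obtain ⟨y, ⟨a, b, h1, h2⟩, h3⟩ := h
  refine ⟨Φ ^ j * a, b, h1, dvd_mul_right _ _, ?_⟩
  have hb : b ≠ 0 := by
    rintro rfl
    exact hΦ (isCoprime_zero_left.1 h1)
  rw [eq_div_iff (al_ne hb), h3, map_mul, map_pow, mul_assoc, h2]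

lemma S_eq {d n l : ℕ} (hl : d = 2 * l + 3) :
    S d n = (1 - QL.q : RatFunc ℚ)⁻¹ * ∑ k ∈ range n, W d l 1 k * tt d 1 k ^ d := by
  unfold S
  rw [mul_sum]
  apply sum_congr rfl
  intro k _
  have e1 : qp q (q ^ d) k / qp (q ^ d) (q ^ d) k = tt d 1 k := by
    unfold qp tt
    rw [← prod_div_distrib]
    apply prod_congr rfl
    intro j _
    rw [div_eq_mul_inv]
    have e2 : e (1 + (d : ℤ) * j) = 1 - q * (q ^ d) ^ j := by
      unfold e
      rw [q_def, ← pow_mul, ← pow_succ', ← zpow_natCast QL.q (d * j + 1)]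
      congr 2; push_cast; ring
    have e3 : e ((d : ℤ) * (j + 1)) = 1 - q ^ d * (q ^ d) ^ j := by
      unfold e
      rw [q_def, ← pow_succ', ← pow_mul, ← zpow_natCast QL.q (d * (j + 1))]
      congr 2
    rw [e2, e3]
  have e4 : d * (d - 3) / 2 = d * l := by
    rw [hl, Nat.add_sub_cancel]
    have : (2 * l + 3) * (2 * l) = (2 * l + 3) * l * 2 := by ring
    rw [this, Nat.mul_div_cancel _ (by norm_num)]
  rw [e1, e4]
  unfold qint W e
  rw [q_def, ← zpow_natCast QL.q (2 * d * k + 1), ← zpow_natCast QL.q (d * l * k)]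
  have e5 : ((2 * d * k + 1 : ℕ) : ℤ) = 1 + 2 * (d : ℤ) * k := by push_cast; ring
  have e6 : ((d * l * k : ℕ) : ℤ) = (d : ℤ) * l * k := by push_cast; ring
  rw [e5, e6, div_eq_mul_inv]
  ring

/-- **Full positive answer to Q2**: for every odd `d ≥ 5` and every positive `n` with
`2n ≡ -1 (mod d)`, `S_d(n)` is divisible by `Φ_n(q)^4`. -/
theorem result (d n : ℕ) (hd : 5 ≤ d) (hdo : d % 2 = 1) (hn : 0 < n) (h : d ∣ 2 * n + 1) :
    ZeroMod (cyclotomic n ℚ) 4 (S d n) := by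
  obtain ⟨c, hc⟩ := h
  have hc0 : 0 < c := by
    rcases Nat.eq_zero_or_pos c with h0 | h0
    · rw [h0, mul_zero] at hc; omega
    · exact h0
  have hdn : d ≤ 2 * n + 1 := by rw [hc]; exact Nat.le_mul_of_pos_right d hc0
  have hcn : c ≤ n := by
    by_contra hcon
    have : 5 * c ≤ d * c := Nat.mul_le_mul_right c hd
    omega
  obtain ⟨l, hl⟩ : ∃ l, d = 2 * l + 3 := ⟨(d - 3) / 2, by omega⟩
  have hcop : Nat.Coprime n d := by
    have h1 : Nat.Coprime (2 * n) (2 * n + 1) := by simp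
    exact Nat.Coprime.coprime_mul_left (Nat.Coprime.coprime_dvd_right ⟨c, hc⟩ h1)
  have H : Hyp2 d (c - 1) (n - c) n l 1 := by
    refine ⟨hn, ?_, by omega, ?_, by omega, by norm_num, hd, hdo, hcop⟩
    · have h1 : (d : ℤ) * c = 2 * n + 1 := by exact_mod_cast hc.symm
      have h2 : (((c - 1 : ℕ) : ℤ)) = c - 1 := by omega
      rw [h2]
      linear_combination h1
    · rw [hl]; push_cast; ring
  have h1 := main2 H
  have hnd : ¬ n ∣ 1 := by
    intro hh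
    have := Nat.le_of_dvd one_pos hh
    omega
  have hinv : (1 - QL.q : RatFunc ℚ)⁻¹ ∈ Loc (cyclotomic n ℚ) := by
    have := inv_one_sub_mem (N := n) (b := 1) hnd
    rwa [pow_one] at this
  rw [S_eq hl]
  refine zeroMod_of_QO ?_ (QO.mul_left hinv h1)
  exact (cyclotomic.irreducible_rat hn).not_isUnit

end

end Pool.Agent.Results.MP_3c5a12_nt.HalfNMinusOne
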